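import Pool.Agent.Helper97.Leaky.Scale

/-!
# Simplicity of the discrete spectrum of leaky curves fails

For every coupling `α > 0` there is a curve `γ` satisfying (a1), (a2), (a3), equal to a straight
line outside a compact set, such that the operator `-Δ - α δ(x - Γ)` has an eigenvalue
`E < -α²/4` whose eigenspace contains two linearly independent elements of `L²(ℝ²)`.
The definitions `IsArcCurve`, `A1`, `A2`, `A3`, `IsTest`, `d1`, `d2`, `L2Lim`, `InFormDomain`,
`IsEigen`, `eigenspace` are in `Pool.Agent.Helper97.Leaky.Defs`.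
-/

open MeasureTheory Filter Topology Set
open scoped InnerProductSpace ComplexConjugate

namespace Pool.Agent.Results.MP_e4073d_mp.DoubleEigenvalue

open Pool.Agent.Helper97.Leaky

lemma inner_Lp (f g : Lp ℝ 2 (volume : Measure (ℝ × ℝ))) : ⟪f, g⟫_ℝ = ∫ p, f p * g p := by
  rw [L2.inner_def]
  congr 1
  ext p
  simp [mul_comm]

lemma integral_scaled (f g : Lp ℝ 2 (volume : Measure (ℝ × ℝ))) {t : ℝ} (ht : 0 < t) :
    ∫ p : ℝ × ℝ, conj ((f (t⁻¹ • p) : ℝ) : ℂ) * ((g (t⁻¹ • p) : ℝ) : ℂ)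
      = (t : ℂ) ^ 2 * ((⟪f, g⟫_ℝ : ℝ) : ℂ) := by
  set F : ℝ × ℝ → ℂ := fun q => ((f q * g q : ℝ) : ℂ) with hF
  have e : ∀ p : ℝ × ℝ, conj ((f (t⁻¹ • p) : ℝ) : ℂ) * ((g (t⁻¹ • p) : ℝ) : ℂ)
      = F (t⁻¹ • p) := by
    intro p
    rw [Complex.conj_ofReal, hF]
    push_cast
    ring
  simp only [e]
  rw [int2 F ht, inner_Lp, hF, integral_complex_ofReal]

theorem result : ∀ α : ℝ, 0 < α → ∃ γ : ℝ → ℝ × ℝ,
    IsArcCurve γ ∧ A1 γ ∧ A2 γ ∧ A3 γ ∧ (∃ R : ℝ, ∀ s : ℝ, R ≤ |s| → (γ s).2 = 0) ∧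
    ∃ E : ℝ, E < -(α ^ 2 / 4) ∧ ∃ ψ₁ ∈ eigenspace α γ E, ∃ ψ₂ ∈ eigenspace α γ E,
      LinearIndependent ℂ ![ψ₁, ψ₂] := by
  intro α hα
  obtain ⟨η, hη, lam, hlam, ⟨u, hu1, hu⟩, ⟨v, hv1, hv⟩⟩ := exists_crossing
  have hη0 : 0 < η := by linarith [hη.1]
  have hlam0 : 0 < lam := by linarith
  set t : ℝ := 1 / lam / α with ht
  have ht0 : 0 < t := by positivity
  have harc := gam_arc KK_pos hη0.le
  have hm := one_le_mf KK η
  set γ : ℝ → ℝ × ℝ := scurve t (gam KK η) with hγ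
  have hpos : ∀ s, t * (mf KK η / 2) ≤ s → γ s = (s - t * ((mf KK η - 1) / 2), 0) := by
    intro s hs
    rw [hγ]
    unfold scurve
    rw [gam_of_ge (by
      rw [smul_eq_mul, ← div_eq_inv_mul, le_div_iff₀ ht0]; linarith)]
    ext
    · simp only [Prod.smul_fst, smul_eq_mul]
      rw [mul_sub, mul_inv_cancel_left₀ ht0.ne']
    · simp
  have hneg : ∀ s, s ≤ -(t * (mf KK η / 2)) → γ s = (s + t * ((mf KK η - 1) / 2), 0) := by
    intro s hs
    rw [hγ]
    unfold scurve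
    rw [gam_of_le (by
      rw [smul_eq_mul, ← div_eq_inv_mul, div_le_iff₀ ht0]; linarith)]
    ext
    · simp only [Prod.smul_fst, smul_eq_mul]
      rw [mul_add, mul_inv_cancel_left₀ ht0.ne']
    · simp
  refine ⟨γ, harc.scale ht0, (gam_A1 KK_pos hη0).scale ht0, A2_of_arms (by positivity) hpos hneg,
    (gam_A3 KK_pos hη0).scale ht0, ⟨t * (mf KK η / 2), fun s hs => ?_⟩, -1 / t ^ 2, ?_, ?_⟩
  · rcases le_abs.1 hs with h | h
    · rw [hpos s h]
    · rw [hneg s (by linarith)]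
  · -- the energy is below the essential spectrum
    have e : -1 / t ^ 2 = - (lam * α) ^ 2 := by
      rw [ht]; field_simp
    rw [e]
    have h1 : α ^ 2 < (lam * α) ^ 2 := by
      rw [mul_pow]
      have : 1 < lam ^ 2 := by nlinarith
      have hα2 : 0 < α ^ 2 := by positivity
      nlinarith
    have hα2 : 0 < α ^ 2 := by positivity
    linarith
  · -- the two eigenfunctions
    have hEu := (eigen_complex (σ := -1) (by norm_num) hη0.le hη.2 hlam0 u hu).scale
      harc.continuous ht0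
    have hEv := (eigen_complex (σ := 1) (by norm_num) hη0.le hη.2 hlam0 v hv).scale
      harc.continuous ht0
    have hα' : 1 / lam / t = α := by rw [ht]; field_simp
    rw [hα'] at hEu hEv
    have hu0 := comp_ne_zero hη0.le hη.2 hlam0 u hu1 hu
    have hv0 := comp_ne_zero hη0.le hη.2 hlam0 v hv1 hv
    have horth := comp_orth (σ := 1) (by norm_num) v u
    have htc : (t : ℂ) ^ 2 ≠ 0 := by
      have : (t : ℂ) ≠ 0 := by exact_mod_cast ht0.ne'
      exact pow_ne_zero _ this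
    refine two_eigen hEv hEu ?_ ?_ ?_
    · rw [integral_scaled _ _ ht0, horth]
      simp
    · rw [integral_scaled _ _ ht0, real_inner_self_eq_norm_sq]
      apply mul_ne_zero htc
      have : ‖((v : Hs 1) : Amb) 0‖ ^ 2 ≠ 0 := pow_ne_zero _ (norm_ne_zero_iff.2 hv0)
      exact_mod_cast this
    · rw [integral_scaled _ _ ht0, real_inner_self_eq_norm_sq]
      apply mul_ne_zero htc
      have : ‖((u : Hs (-1)) : Amb) 0‖ ^ 2 ≠ 0 := pow_ne_zero _ (norm_ne_zero_iff.2 hu0)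
      exact_mod_cast this

end Pool.Agent.Results.MP_e4073d_mp.DoubleEigenvalue
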